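import Mathlib
import Pool.Agent.H710R2.DP.Defs
import Pool.Agent.H710R2.DP.Defs2
import Pool.Agent.H710R2.DP.Tasks

open scoped ComplexOrder InnerProductSpace ComplexConjugate
open Finset

noncomputable section

namespace H710R2.DP

open H759R2.Kad

namespace GG1

section basic

variable {H : Type} [NormedAddCommGroup H] [InnerProductSpace ℂ H] [CompleteSpace H]

/-- the diagonal action of `p` on the sum of copies of `H` -/
def Pm (m : ℕ) (p : H →L[ℂ] H) : HH (Fin m) H →L[ℂ] HH (Fin m) H :=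
  opMat fun i j => if i = j then p else 0

theorem Pm_apply (m : ℕ) (p : H →L[ℂ] H) (v : HH (Fin m) H) (i : Fin m) :
    Pm m p v i = p (v i) := by
  unfold Pm
  rw [opMat_apply, Finset.sum_eq_single i]
  · simp
  · intro j _ hj
    simp [Ne.symm hj]
  · simp

theorem Pm_Pm (m : ℕ)
    (p p' : H →L[ℂ] H) (v : HH (Fin m) H) : Pm m p (Pm m p' v) = Pm m (p * p') v := by
  ext i
  rw [Pm_apply, Pm_apply, Pm_apply]
  rfl

theorem pr_norm_le {p : H →L[ℂ] H} (hp : IsPr p) (x : H) : ‖p x‖ ≤ ‖x‖ := by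
  have h1 : ‖p‖ ≤ 1 := by
    have h := CStarRing.norm_star_mul_self (x := p)
    rw [hp.1, hp.2] at h
    by_contra hc
    push Not at hc
    nlinarith
  calc ‖p x‖ ≤ ‖p‖ * ‖x‖ := p.le_opNorm x
    _ ≤ 1 * ‖x‖ := by gcongr
    _ = ‖x‖ := one_mul _

theorem Pm_norm_le (m : ℕ) {p : H →L[ℂ] H} (hp : IsPr p) (v : HH (Fin m) H) :
    ‖Pm m p v‖ ≤ ‖v‖ := by
  rw [PiLp.norm_eq_of_L2, PiLp.norm_eq_of_L2]
  apply Real.sqrt_le_sqrt
  apply Finset.sum_le_sum
  intro i _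
  rw [Pm_apply]
  exact pow_le_pow_left₀ (norm_nonneg _) (pr_norm_le hp _) 2

theorem pr_inner {p : H →L[ℂ] H} (hp : IsPr p) (x y : H) : ⟪p x, y⟫_ℂ = ⟪x, p y⟫_ℂ := by
  have h := ContinuousLinearMap.adjoint_inner_left p y x
  rw [← ContinuousLinearMap.star_eq_adjoint, hp.1] at h
  exact h

theorem Pm_orth (m : ℕ) {p p' : H →L[ℂ] H} (hp : IsPr p) (h : p * p' = 0) (v w : HH (Fin m) H) :
    ⟪Pm m p v, Pm m p' w⟫_ℂ = 0 := by
  rw [PiLp.inner_apply]
  apply Finset.sum_eq_zero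
  intro i _
  rw [Pm_apply, Pm_apply, pr_inner hp]
  have : p (p' (w i)) = (p * p') (w i) := rfl
  rw [this, h]
  simp

theorem Pm_add_sq (m : ℕ) {p p' : H →L[ℂ] H} (hp : IsPr p) (h : p * p' = 0)
    (v w : HH (Fin m) H) : ‖Pm m p v + Pm m p' w‖ ^ 2 = ‖Pm m p v‖ ^ 2 + ‖Pm m p' w‖ ^ 2 := by
  have h1 := norm_add_sq (𝕜 := ℂ) (Pm m p v) (Pm m p' w)
  rw [Pm_orth m hp h] at h1
  simpa using h1

end basic

section vn

variable {H : Type} [NormedAddCommGroup H] [InnerProductSpace ℂ H] [CompleteSpace H]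
variable {M : VonNeumannAlgebra H}

theorem cp_mul_comm {p p' : H →L[ℂ] H} (hp : IsCP M p) (hp' : IsCP M p') : p * p' = p' * p :=
  hp.2.2 p' hp'.2.1

theorem cp_zero : IsCP M 0 :=
  ⟨⟨star_zero _, mul_zero _⟩, zero_mem M.toStarSubalgebra, fun a _ => by simp⟩

theorem cp_one : IsCP M 1 :=
  ⟨⟨star_one _, mul_one _⟩, one_mem M.toStarSubalgebra, fun a _ => by simp⟩

theorem cp_compl {p : H →L[ℂ] H} (hp : IsCP M p) : IsCP M (1 - p) := by
  refine ⟨⟨?_, ?_⟩, sub_mem (one_mem M.toStarSubalgebra) hp.2.1, fun a ha => ?_⟩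
  · rw [star_sub, star_one, hp.1.1]
  · rw [mul_sub, sub_mul, sub_mul, hp.1.2]
    simp
  · rw [sub_mul, mul_sub, hp.2.2 a ha, one_mul, mul_one]

theorem cp_mul {p p' : H →L[ℂ] H} (hp : IsCP M p) (hp' : IsCP M p') : IsCP M (p * p') := by
  refine ⟨⟨?_, ?_⟩, mul_mem (show p ∈ M.toStarSubalgebra from hp.2.1) (show p' ∈ M.toStarSubalgebra from hp'.2.1), fun a ha => ?_⟩
  · rw [star_mul, hp.1.1, hp'.1.1, cp_mul_comm hp' hp]
  · calc p * p' * (p * p') = p * (p' * p) * p' := by noncomm_ring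
      _ = p * (p * p') * p' := by rw [cp_mul_comm hp' hp]
      _ = (p * p) * (p' * p') := by noncomm_ring
      _ = p * p' := by rw [hp.1.2, hp'.1.2]
  · rw [mul_assoc, hp'.2.2 a ha, ← mul_assoc, hp.2.2 a ha, mul_assoc]

theorem cp_add {p p' : H →L[ℂ] H} (hp : IsCP M p) (hp' : IsCP M p') (h : p * p' = 0) :
    IsCP M (p + p') := by
  have h' : p' * p = 0 := by rw [← cp_mul_comm hp hp', h]
  refine ⟨⟨?_, ?_⟩, add_mem (show p ∈ M.toStarSubalgebra from hp.2.1) (show p' ∈ M.toStarSubalgebra from hp'.2.1), fun a ha => ?_⟩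
  · rw [star_add, hp.1.1, hp'.1.1]
  · rw [mul_add, add_mul, add_mul, hp.1.2, hp'.1.2, h, h']
    simp
  · rw [add_mul, mul_add, hp.2.2 a ha, hp'.2.2 a ha]

end vn

section main

variable {H : Type} [NormedAddCommGroup H] [InnerProductSpace ℂ H] [CompleteSpace H]
variable {M : VonNeumannAlgebra H} [PartialOrder M.toStarSubalgebra]
  [StarOrderedRing M.toStarSubalgebra]

/-- the matrix with entries `p * X i j` -/
def mulX {m : ℕ} (p : M.toStarSubalgebra) (X : CStarMatrix (Fin m) (Fin m) M.toStarSubalgebra) :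
    CStarMatrix (Fin m) (Fin m) M.toStarSubalgebra :=
  CStarMatrix.ofMatrix (Matrix.diagonal fun _ => p) * X

omit [PartialOrder M.toStarSubalgebra] [StarOrderedRing M.toStarSubalgebra] in
theorem mulX_apply {m : ℕ} (p : M.toStarSubalgebra)
    (X : CStarMatrix (Fin m) (Fin m) M.toStarSubalgebra) (i j : Fin m) :
    mulX p X i j = p * X i j := by
  unfold mulX
  rw [CStarMatrix.mul_apply, Finset.sum_eq_single i]
  · simp
  · intro k _ hk
    simp [Matrix.diagonal_apply_ne _ (Ne.symm hk)]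
  · simp

theorem norm_mulX_le {m : ℕ} {p : M.toStarSubalgebra} (h1 : star p = p) (h2 : p * p = p)
    (X : CStarMatrix (Fin m) (Fin m) M.toStarSubalgebra) : ‖mulX p X‖ ≤ ‖X‖ := by
  set D : CStarMatrix (Fin m) (Fin m) M.toStarSubalgebra :=
    CStarMatrix.ofMatrix (Matrix.diagonal fun _ => p) with hD
  have hs : star D = D := by
    ext i j
    rw [CStarMatrix.star_apply, hD]
    by_cases hij : i = j
    · subst hij
      simp [h1]
    · simp [Matrix.diagonal_apply_ne _ hij, Matrix.diagonal_apply_ne _ (Ne.symm hij)]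
  have hd : D * D = D := by
    have : D * D = mulX p D := rfl
    rw [this]
    ext i j
    rw [mulX_apply, hD]
    by_cases hij : i = j
    · subst hij
      simp [h2]
    · simp [Matrix.diagonal_apply_ne _ hij]
  have hn : ‖D‖ ≤ 1 := by
    have h := CStarRing.norm_star_mul_self (x := D)
    rw [hs, hd] at h
    by_contra hc
    push Not at hc
    nlinarith
  calc ‖mulX p X‖ = ‖D * X‖ := rfl
    _ ≤ ‖D‖ * ‖X‖ := norm_mul_le _ _
    _ ≤ 1 * ‖X‖ := by gcongr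
    _ = ‖X‖ := one_mul _

variable {E : M.toStarSubalgebra →ₗ[ℂ] (H →L[ℂ] H)} {d : ℝ}

omit [PartialOrder M.toStarSubalgebra] [StarOrderedRing M.toStarSubalgebra] in
theorem amp_mulX_left (hE : IsDerB (inc M) E d)
    (hE0 : ∀ x : M.toStarSubalgebra, IsCen M (x : H →L[ℂ] H) → E x = 0) {m : ℕ}
    {p : H →L[ℂ] H} (hp : IsCP M p) (X : CStarMatrix (Fin m) (Fin m) M.toStarSubalgebra)
    (v : HH (Fin m) H) :
    amp E (Fin m) (mulX ⟨p, hp.2.1⟩ X) v = Pm m p (amp E (Fin m) X v) := by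
  ext i
  rw [Pm_apply, amp_apply, amp_apply, map_sum]
  refine Finset.sum_congr rfl fun j _ => ?_
  rw [mulX_apply, hE.leib, hE0 ⟨p, hp.2.1⟩ hp.2, zero_mul, add_zero]
  rfl

omit [PartialOrder M.toStarSubalgebra] [StarOrderedRing M.toStarSubalgebra] in
theorem amp_mulX_right (hE : IsDerB (inc M) E d)
    (hE0 : ∀ x : M.toStarSubalgebra, IsCen M (x : H →L[ℂ] H) → E x = 0) {m : ℕ}
    {p : H →L[ℂ] H} (hp : IsCP M p) (X : CStarMatrix (Fin m) (Fin m) M.toStarSubalgebra)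
    (v : HH (Fin m) H) :
    amp E (Fin m) (mulX ⟨p, hp.2.1⟩ X) v = amp E (Fin m) X (Pm m p v) := by
  ext i
  rw [amp_apply, amp_apply]
  refine Finset.sum_congr rfl fun j _ => ?_
  have hc : (⟨p, hp.2.1⟩ : M.toStarSubalgebra) * X i j = X i j * ⟨p, hp.2.1⟩ :=
    Subtype.ext (hp.2.2 _ (X i j).2)
  rw [mulX_apply, hc, hE.leib, hE0 ⟨p, hp.2.1⟩ hp.2, mul_zero, zero_add, Pm_apply]
  rfl

/-- `p` is good: the bound holds on the range of `p` -/
def good (E : M.toStarSubalgebra →ₗ[ℂ] (H →L[ℂ] H)) (m : ℕ) (C : ℝ) (p : H →L[ℂ] H) : Prop :=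
  IsCP M p ∧ ∀ (X : CStarMatrix (Fin m) (Fin m) M.toStarSubalgebra) (v : HH (Fin m) H),
    ‖amp E (Fin m) X (Pm m p v)‖ ≤ C * ‖X‖ * ‖Pm m p v‖

omit [PartialOrder M.toStarSubalgebra] [StarOrderedRing M.toStarSubalgebra] in
theorem hat_star {p : H →L[ℂ] H} (hp : IsCP M p) :
    star (⟨p, hp.2.1⟩ : M.toStarSubalgebra) = ⟨p, hp.2.1⟩ := Subtype.ext hp.1.1

omit [PartialOrder M.toStarSubalgebra] [StarOrderedRing M.toStarSubalgebra] in
theorem hat_mul {p : H →L[ℂ] H} (hp : IsCP M p) :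
    (⟨p, hp.2.1⟩ : M.toStarSubalgebra) * ⟨p, hp.2.1⟩ = ⟨p, hp.2.1⟩ := Subtype.ext hp.1.2

omit [PartialOrder M.toStarSubalgebra] [StarOrderedRing M.toStarSubalgebra] in
theorem mulX_coe {m : ℕ} {p : H →L[ℂ] H} (hp : IsCP M p)
    (X : CStarMatrix (Fin m) (Fin m) M.toStarSubalgebra) (i j : Fin m) :
    (mulX ⟨p, hp.2.1⟩ X i j : H →L[ℂ] H) = p * (X i j : H →L[ℂ] H) := by
  rw [mulX_apply]
  rfl

theorem PBd_vec {m : ℕ} {C : ℝ} {p : H →L[ℂ] H} (h : PBd M E p m C)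
    (Y : CStarMatrix (Fin m) (Fin m) M.toStarSubalgebra)
    (hY : ∀ i j, p * (Y i j : H →L[ℂ] H) = Y i j) (w : HH (Fin m) H) :
    ‖amp E (Fin m) Y w‖ ≤ C * ‖Y‖ * ‖w‖ :=
  ContinuousLinearMap.le_of_opNorm_le _ (h Y hY) w

theorem good_of_PBd (hE : IsDerB (inc M) E d)
    (hE0 : ∀ x : M.toStarSubalgebra, IsCen M (x : H →L[ℂ] H) → E x = 0) {m : ℕ} {C : ℝ}
    (hC : 0 ≤ C) {p : H →L[ℂ] H} (hp : IsCP M p) (h : PBd M E p m C) : good E m C p := by
  refine ⟨hp, fun X v => ?_⟩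
  have h1 : Pm m p (Pm m p v) = Pm m p v := by rw [Pm_Pm, hp.1.2]
  have h2 : amp E (Fin m) (mulX ⟨p, hp.2.1⟩ X) (Pm m p v) = amp E (Fin m) X (Pm m p v) := by
    rw [amp_mulX_right hE hE0 hp, h1]
  have h3 := PBd_vec h (mulX ⟨p, hp.2.1⟩ X) (fun i j => by
    rw [mulX_coe hp, ← mul_assoc, hp.1.2]) (Pm m p v)
  rw [h2] at h3
  have h4 : ‖mulX ⟨p, hp.2.1⟩ X‖ ≤ ‖X‖ := norm_mulX_le (hat_star hp) (hat_mul hp) X
  exact h3.trans (mul_le_mul_of_nonneg_right (mul_le_mul_of_nonneg_left h4 hC) (norm_nonneg _))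

theorem good_of_le {m : ℕ} {C : ℝ} {p p' : H →L[ℂ] H} (hp : good E m C p) (hp' : IsCP M p')
    (h : p * p' = p') : good E m C p' := by
  refine ⟨hp', fun X v => ?_⟩
  have h1 : Pm m p' v = Pm m p (Pm m p' v) := by rw [Pm_Pm, h]
  rw [h1]
  exact hp.2 X _

theorem good_zero {m : ℕ} {C : ℝ} : good E m C (0 : H →L[ℂ] H) := by
  refine ⟨cp_zero, fun X v => ?_⟩
  have : Pm m (0 : H →L[ℂ] H) v = 0 := by
    ext i
    rw [Pm_apply]
    rfl
  rw [this]
  simp

theorem good_add (hE : IsDerB (inc M) E d)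
    (hE0 : ∀ x : M.toStarSubalgebra, IsCen M (x : H →L[ℂ] H) → E x = 0) {m : ℕ} {C : ℝ}
    (hC : 0 ≤ C) {p p' : H →L[ℂ] H} (hp : good E m C p) (hp' : good E m C p')
    (h : p * p' = 0) : good E m C (p + p') := by
  refine ⟨cp_add hp.1 hp'.1 h, fun X v => ?_⟩
  have h0 : Pm m (p + p') v = Pm m p v + Pm m p' v := by
    ext i
    rw [PiLp.add_apply, Pm_apply, Pm_apply, Pm_apply]
    rfl
  have key : ∀ q : H →L[ℂ] H, IsCP M q → amp E (Fin m) X (Pm m q v) =
      Pm m q (amp E (Fin m) X (Pm m q v)) := by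
    intro q hq
    rw [← amp_mulX_left hE hE0 hq, amp_mulX_right hE hE0 hq, Pm_Pm, hq.1.2]
  have h1 : ‖amp E (Fin m) X (Pm m (p + p') v)‖ ^ 2 =
      ‖amp E (Fin m) X (Pm m p v)‖ ^ 2 + ‖amp E (Fin m) X (Pm m p' v)‖ ^ 2 := by
    rw [h0, map_add, key p hp.1, key p' hp'.1, Pm_add_sq m hp.1.1 h]
  have h2 : ‖Pm m (p + p') v‖ ^ 2 = ‖Pm m p v‖ ^ 2 + ‖Pm m p' v‖ ^ 2 := by
    rw [h0, Pm_add_sq m hp.1.1 h]
  have h3 := hp.2 X v
  have h4 := hp'.2 X v
  have h5 : 0 ≤ C * ‖X‖ := by positivity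
  apply le_of_sq_le_sq _ (by positivity)
  calc ‖amp E (Fin m) X (Pm m (p + p') v)‖ ^ 2
      = ‖amp E (Fin m) X (Pm m p v)‖ ^ 2 + ‖amp E (Fin m) X (Pm m p' v)‖ ^ 2 := h1
    _ ≤ (C * ‖X‖ * ‖Pm m p v‖) ^ 2 + (C * ‖X‖ * ‖Pm m p' v‖) ^ 2 := by gcongr
    _ = (C * ‖X‖ * ‖Pm m (p + p') v‖) ^ 2 := by rw [mul_pow _ ‖Pm m (p + p') v‖, h2]; ring

theorem good_dir (hE : IsDerB (inc M) E d)
    (hE0 : ∀ x : M.toStarSubalgebra, IsCen M (x : H →L[ℂ] H) → E x = 0) {m : ℕ} {C : ℝ}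
    (hC : 0 ≤ C) {p p' : H →L[ℂ] H} (hp : good E m C p) (hp' : good E m C p') :
    ∃ s, good E m C s ∧ s * p = p ∧ s * p' = p' := by
  have hc := cp_mul_comm hp.1 hp'.1
  have h1 : IsCP M ((1 - p) * p') := cp_mul (cp_compl hp.1) hp'.1
  have h2 : good E m C ((1 - p) * p') := by
    refine good_of_le hp' h1 ?_
    calc p' * ((1 - p) * p') = p' * p' - p' * p * p' := by noncomm_ring
      _ = p' - p * p' * p' := by rw [hp'.1.1.2, hc]
      _ = p' - p * p' := by rw [mul_assoc, hp'.1.1.2]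
      _ = (1 - p) * p' := by noncomm_ring
  have h3 : p * ((1 - p) * p') = 0 := by
    calc p * ((1 - p) * p') = p * p' - p * p * p' := by noncomm_ring
      _ = 0 := by rw [hp.1.1.2, sub_self]
  refine ⟨p + (1 - p) * p', good_add hE hE0 hC hp h2 h3, ?_, ?_⟩
  · calc (p + (1 - p) * p') * p = p * p + p' * p - p * (p' * p) := by noncomm_ring
      _ = p + p * p' - p * (p * p') := by rw [hp.1.1.2, ← hc]
      _ = p := by rw [← mul_assoc, hp.1.1.2]; abel
  · calc (p + (1 - p) * p') * p' = p * p' + p' * p' - p * (p' * p') := by noncomm_ring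
      _ = p' := by rw [hp'.1.1.2]; abel

/-- the union of the ranges of the good projections -/
def VV (hE : IsDerB (inc M) E d)
    (hE0 : ∀ x : M.toStarSubalgebra, IsCen M (x : H →L[ℂ] H) → E x = 0) (m : ℕ) {C : ℝ}
    (hC : 0 ≤ C) : Submodule ℂ H where
  carrier := {ξ | ∃ p, good E m C p ∧ p ξ = ξ}
  zero_mem' := ⟨0, good_zero, by simp⟩
  add_mem' := by
    rintro a b ⟨p, hp, ha⟩ ⟨p', hp', hb⟩
    obtain ⟨s, hs, h1, h2⟩ := good_dir hE hE0 hC hp hp'
    refine ⟨s, hs, ?_⟩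
    rw [map_add]
    congr 1
    · calc s a = s (p a) := by rw [ha]
        _ = (s * p) a := rfl
        _ = a := by rw [h1, ha]
    · calc s b = s (p' b) := by rw [hb]
        _ = (s * p') b := rfl
        _ = b := by rw [h2, hb]
  smul_mem' := by
    rintro c a ⟨p, hp, ha⟩
    exact ⟨p, hp, by rw [map_smul, ha]⟩

/-- the same in the sum of copies of `H` -/
def VVm (hE : IsDerB (inc M) E d)
    (hE0 : ∀ x : M.toStarSubalgebra, IsCen M (x : H →L[ℂ] H) → E x = 0) (m : ℕ) {C : ℝ}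
    (hC : 0 ≤ C) : Submodule ℂ (HH (Fin m) H) where
  carrier := {v | ∃ p, good E m C p ∧ Pm m p v = v}
  zero_mem' := ⟨0, good_zero, by simp⟩
  add_mem' := by
    rintro a b ⟨p, hp, ha⟩ ⟨p', hp', hb⟩
    obtain ⟨s, hs, h1, h2⟩ := good_dir hE hE0 hC hp hp'
    refine ⟨s, hs, ?_⟩
    rw [map_add]
    congr 1
    · calc Pm m s a = Pm m s (Pm m p a) := by rw [ha]
        _ = Pm m (s * p) a := Pm_Pm _ _ _ _
        _ = a := by rw [h1, ha]
    · calc Pm m s b = Pm m s (Pm m p' b) := by rw [hb]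
        _ = Pm m (s * p') b := Pm_Pm _ _ _ _
        _ = b := by rw [h2, hb]
  smul_mem' := by
    rintro c a ⟨p, hp, ha⟩
    exact ⟨p, hp, by rw [map_smul, ha]⟩

theorem VV_inv (hE : IsDerB (inc M) E d)
    (hE0 : ∀ x : M.toStarSubalgebra, IsCen M (x : H →L[ℂ] H) → E x = 0) (m : ℕ) {C : ℝ}
    (hC : 0 ≤ C) (y : H →L[ℂ] H) (hy : ∀ p, IsCP M p → p * y = y * p) :
    ∀ ξ ∈ (VV hE hE0 m hC).topologicalClosure, y ξ ∈ (VV hE hE0 m hC).topologicalClosure := by
  have h : (VV hE hE0 m hC).topologicalClosure ≤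
      ((VV hE hE0 m hC).topologicalClosure).comap (y : H →ₗ[ℂ] H) := by
    refine Submodule.topologicalClosure_minimal _ ?_ ?_
    · rintro ξ ⟨p, hp, h⟩
      refine Submodule.le_topologicalClosure _ ⟨p, hp, ?_⟩
      calc p (y ξ) = (p * y) ξ := rfl
        _ = (y * p) ξ := by rw [hy p hp.1]
        _ = y (p ξ) := rfl
        _ = y ξ := by rw [h]
    · exact (Submodule.isClosed_topologicalClosure _).preimage y.continuous
  exact fun ξ hξ => h hξ

theorem VV_dense (hE : IsDerB (inc M) E d)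
    (hE0 : ∀ x : M.toStarSubalgebra, IsCen M (x : H →L[ℂ] H) → E x = 0) (m : ℕ) {C : ℝ}
    (hC : 0 ≤ C)
    (hq : ∀ q, IsCP M q → q ≠ 0 → ∃ p, IsCP M p ∧ p ≠ 0 ∧ q * p = p ∧ PBd M E p m C) :
    (VV hE hE0 m hC).topologicalClosure = ⊤ := by
  set K := (VV hE hE0 m hC).topologicalClosure with hK
  have : CompleteSpace K := (Submodule.isClosed_topologicalClosure _).completeSpace_coe
  have hp : IsStarProjection K.starProjection := isStarProjection_starProjection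
  have hr : (K.starProjection).range = K := Submodule.range_starProjection K
  have hpK : ∀ v ∈ K, K.starProjection v = v :=
    fun v hv => Submodule.starProjection_eq_self_iff.2 hv
  have h1 : K.starProjection ∈ M := by
    rw [VonNeumannAlgebra.IsStarProjection.mem_iff hp]
    intro y hy
    rw [hr, Module.End.mem_invtSubmodule]
    intro ξ hξ
    refine VV_inv hE hE0 m hC y (fun p hp => ?_) ξ hξ
    exact VonNeumannAlgebra.mem_commutant_iff.1 hy p hp.2.1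
  have h2 : K.starProjection ∈ M.commutant := by
    rw [VonNeumannAlgebra.IsStarProjection.mem_iff hp]
    intro y hy
    rw [VonNeumannAlgebra.commutant_commutant] at hy
    rw [hr, Module.End.mem_invtSubmodule]
    intro ξ hξ
    exact VV_inv hE hE0 m hC y (fun p hp => hp.2.2 y hy) ξ hξ
  have hcp : IsCP M K.starProjection := by
    refine ⟨⟨hp.isSelfAdjoint, hp.isIdempotentElem⟩, h1, fun a ha => ?_⟩
    exact (VonNeumannAlgebra.mem_commutant_iff.1 h2 a ha).symm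
  by_cases h0 : 1 - K.starProjection = 0
  · rw [eq_top_iff]
    intro ξ _
    have h3 : K.starProjection ξ = ξ := by
      rw [← sub_eq_zero.1 h0]
      rfl
    rw [← h3]
    exact Submodule.starProjection_apply_mem K ξ
  · exfalso
    obtain ⟨p, hp1, hp2, hp3, hp4⟩ := hq _ (cp_compl hcp) h0
    apply hp2
    have hg := good_of_PBd hE hE0 hC hp1 hp4
    have h5 : K.starProjection * p = p := by
      ext ξ
      refine hpK (p ξ) (Submodule.le_topologicalClosure _ ⟨p, hg, ?_⟩)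
      change (p * p) ξ = p ξ
      rw [hp1.1.2]
    rw [sub_mul, one_mul, h5, sub_self] at hp3
    exact hp3.symm

theorem VVm_dense (hE : IsDerB (inc M) E d)
    (hE0 : ∀ x : M.toStarSubalgebra, IsCen M (x : H →L[ℂ] H) → E x = 0) (m : ℕ) {C : ℝ}
    (hC : 0 ≤ C)
    (hq : ∀ q, IsCP M q → q ≠ 0 → ∃ p, IsCP M p ∧ p ≠ 0 ∧ q * p = p ∧ PBd M E p m C) :
    (VVm hE hE0 m hC).topologicalClosure = ⊤ := by
  rw [eq_top_iff]
  intro v _
  rw [← sum_inj v]
  refine Submodule.sum_mem _ fun c _ => ?_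
  have hcont : Continuous (fun u : H => (inj c u : HH (Fin m) H)) := by
    have h : ∀ u : H, (inj c u : HH (Fin m) H) = WithLp.toLp 2 (Pi.single c u) := fun u => rfl
    simp only [h]
    refine (PiLp.continuous_toLp 2 _).comp (continuous_pi fun i => ?_)
    by_cases hi : i = c
    · subst hi
      simpa using continuous_id'
    · simpa [Pi.single_eq_of_ne hi] using continuous_const
  have h1 : (VV hE hE0 m hC).topologicalClosure ≤
      ((VVm hE hE0 m hC).topologicalClosure).comap (inj c : H →ₗ[ℂ] HH (Fin m) H) := by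
    refine Submodule.topologicalClosure_minimal _ ?_ ?_
    · rintro ξ ⟨p, hp, h⟩
      refine Submodule.le_topologicalClosure _ ⟨p, hp, ?_⟩
      ext i
      rw [Pm_apply, inj_apply]
      split_ifs
      · exact h
      · exact map_zero p
    · exact (Submodule.isClosed_topologicalClosure _).preimage hcont
  rw [VV_dense hE hE0 m hC hq] at h1
  exact h1 Submodule.mem_top

end main

end GG1

theorem dp_glue : G_glue := by
  intro H _ _ _ M _ _ E d _ hE hE0 m C hC hq X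
  refine ContinuousLinearMap.opNorm_le_bound _ (by positivity) ?_
  intro v
  have hclosed : IsClosed {v : HH (Fin m) H | ‖amp E (Fin m) X v‖ ≤ C * ‖X‖ * ‖v‖} :=
    isClosed_le (by fun_prop) (by fun_prop)
  have hsub : ((GG1.VVm hE hE0 m hC : Submodule ℂ (HH (Fin m) H)) : Set (HH (Fin m) H)) ⊆
      {v : HH (Fin m) H | ‖amp E (Fin m) X v‖ ≤ C * ‖X‖ * ‖v‖} := by
    rintro w ⟨p, hp, h⟩
    have := hp.2 X w
    rw [h] at this
    exact this
  have h1 := closure_minimal hsub hclosed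
  have h2 : v ∈ (GG1.VVm hE hE0 m hC).topologicalClosure := by
    rw [GG1.VVm_dense hE hE0 m hC hq]
    exact Submodule.mem_top
  exact h1 h2

end H710R2.DP
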